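import Pool.Agent.Helper21.W4.St1

set_option autoImplicit false

/-! Project W4 (MP_4a5405_co), module DD: corners beyond a bound. -/

namespace Pool.Agent.Helper41.W4

open Pool.Agent.Helper21.W4 Finset

theorem hDD : StDD := by
  intro B s t hs ht hc u v
  have hcor : ∀ p, p ∈ cor B s → 1 ≤ p ∧ p < t 1 := by
    intro p hp
    simp only [cor, mem_filter] at hp
    exact ⟨hp.2.1, (hc p 1).1 (by omega)⟩
  refine ⟨fun hu => ?_, ?_, ?_, ?_, ?_, ?_⟩
  · have h1 : (cor B s).filter (fun p => u < p) ⊆ Ioc u (t 1 - 1) := by
      intro p hp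
      rw [mem_filter] at hp
      have h2 := hcor p hp.1
      rw [mem_Ioc]
      omega
    have h2 := card_le_card h1
    rw [Nat.card_Ioc] at h2
    unfold dd
    omega
  · have h1 : (cor B s).filter (fun p => ¬ u < p) ⊆ Icc 1 u := by
      intro p hp
      rw [mem_filter] at hp
      have h2 := hcor p hp.1
      rw [mem_Icc]
      omega
    have h2 := card_le_card h1
    rw [Nat.card_Icc] at h2
    have h3 := card_filter_add_card_filter_not (s := cor B s) (fun p => u < p)
    unfold dd
    omega
  · unfold dd kk
    refine card_le_card ?_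
    intro p hp
    rw [mem_filter] at hp ⊢
    exact ⟨hp.1, Or.inl hp.2⟩
  · unfold kk
    exact card_le_card (filter_subset _ _)
  · unfold kk
    refine card_le_card ?_
    intro p hp
    rw [mem_filter] at hp ⊢
    exact ⟨hp.1, Or.inr hp.2⟩
  · unfold dd kk
    rw [filter_or]
    exact card_union_le _ _

end Pool.Agent.Helper41.W4
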